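import Pool.Agent.Work.MP_602313_nt.Bd.B05

/-!
# D16: existence of the approximate inverse `P`
-/

open scoped Polynomial

noncomputable section

namespace Gou

namespace D16

section aux

variable {p : ℕ} {K : Type} [Field K] {av : AbsoluteValue K ℝ}

theorem av_sum_le {ι : Type*} (h : NA K p av) (s : Finset ι) (f : ι → K)
    (hf : ∀ i ∈ s, av (f i) ≤ 1) : av (∑ i ∈ s, f i) ≤ 1 := by
  classical
  induction s using Finset.induction_on with
  | empty => simp
  | insert a s ha ih =>
    rw [Finset.sum_insert ha]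
    exact (h.na _ _).trans (max_le (hf _ (Finset.mem_insert_self _ _))
      (ih fun i hi => hf _ (Finset.mem_insert_of_mem hi)))

theorem av_list_prod_le (l : List K) (hl : ∀ x ∈ l, av x ≤ 1) : av l.prod ≤ 1 := by
  induction l with
  | nil => simp
  | cons a l ih =>
    rw [List.prod_cons, map_mul]
    exact mul_le_one₀ (hl _ (by simp)) (av.nonneg _) (ih fun x hx => hl _ (List.mem_cons_of_mem _ hx))

theorem cm_mul {R : ℕ} (A B : Matrix (Fin R) (Fin R) ℤ) : cm K (A * B) = cm K A * cm K B :=
  map_mul (Int.castRingHom K).mapMatrix A B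

theorem cm_list_prod {R : ℕ} {L : Type} (M : L → Matrix (Fin R) (Fin R) ℤ) (w : List L) :
    cm K (w.map M).prod = (w.map fun l => cm K (M l)).prod := by
  induction w with
  | nil =>
    simp only [List.map_nil, List.prod_nil]
    exact map_one (Int.castRingHom K).mapMatrix
  | cons a w ih => rw [List.map_cons, List.prod_cons, cm_mul, ih, List.map_cons, List.prod_cons]

theorem cm_trace {R : ℕ} (A : Matrix (Fin R) (Fin R) ℤ) : (cm K A).trace = ((A.trace : ℤ) : K) := by
  simp [Matrix.trace]

theorem list_prod_comm {R : ℕ} {L : Type} (M : L → Matrix (Fin R) (Fin R) ℤ)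
    (h : ∀ l l', M l * M l' = M l' * M l) (w : List L) (l : L) :
    (w.map M).prod * M l = M l * (w.map M).prod := by
  induction w with
  | nil => simp
  | cons a w ih =>
    rw [List.map_cons, List.prod_cons, mul_assoc, ih, ← mul_assoc, h a l, mul_assoc]

theorem list_prod_mulVec {L : Type} {R : ℕ} (M : L → Matrix (Fin R) (Fin R) K) (ψ : L → K)
    (v : Fin R → K) (h : ∀ l, (M l).mulVec v = ψ l • v) (w : List L) :
    ((w.map M).prod).mulVec v = (w.map ψ).prod • v := by
  induction w with
  | nil => simp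
  | cons a w ih =>
    rw [List.map_cons, List.prod_cons, ← Matrix.mulVec_mulVec, ih, Matrix.mulVec_smul, h, smul_smul,
      List.map_cons, List.prod_cons, mul_comm]

/-- The evaluations at the words of `S` span `K^q0`. -/
theorem span_top {L : Type} {q0 : ℕ} (S : Set (List L)) (ψ : Fin q0 → L → K)
    (hind : LinearIndependent K (fun (i : Fin q0) (w : S) => (w.1.map (ψ i)).prod)) :
    Submodule.span K {u : Fin q0 → K | ∃ w ∈ S, u = fun i => (w.map (ψ i)).prod} = ⊤ := by
  by_contra hne
  obtain ⟨f, hf0, hf⟩ := Submodule.exists_le_ker_of_lt_top _ (lt_top_iff_ne_top.2 hne)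
  apply hf0
  have h1 := Fintype.linearIndependent_iff.1 hind (fun i => f fun j => if i = j then 1 else 0) (by
    funext w
    have h2 : (fun i => (w.1.map (ψ i)).prod) ∈ LinearMap.ker f :=
      hf (Submodule.subset_span ⟨w.1, w.2, rfl⟩)
    rw [LinearMap.mem_ker, LinearMap.pi_apply_eq_sum_univ] at h2
    simp only [Finset.sum_apply, Pi.smul_apply, smul_eq_mul, Pi.zero_apply]
    refine Eq.trans ?_ h2
    refine Finset.sum_congr rfl fun i _ => ?_
    rw [smul_eq_mul, mul_comm])
  refine LinearMap.ext fun x => ?_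
  rw [LinearMap.pi_apply_eq_sum_univ]
  simp [h1]

/-- Projection matrices. -/
theorem exists_proj {L : Type} {R q0 : ℕ} (S : Set (List L)) (ψ : Fin q0 → L → K)
    (hind : LinearIndependent K (fun (i : Fin q0) (w : S) => (w.1.map (ψ i)).prod))
    (M : L → Matrix (Fin R) (Fin R) K) (μ' : Fin q0 → ℕ) (v : (i : Fin q0) → Fin (μ' i) → Fin R → K)
    (hev : ∀ i j l, (M l).mulVec (v i j) = ψ i l • v i j) (y : Fin q0 → K) :
    ∃ E : Matrix (Fin R) (Fin R) K, ∀ i j, E.mulVec (v i j) = y i • v i j := by
  have hy : y ∈ Submodule.span K {u : Fin q0 → K | ∃ w ∈ S, u = fun i => (w.map (ψ i)).prod} := by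
    rw [span_top S ψ hind]; trivial
  induction hy using Submodule.span_induction with
  | mem x hx =>
    obtain ⟨w, -, rfl⟩ := hx
    exact ⟨(w.map M).prod, fun i j => list_prod_mulVec M (ψ i) (v i j) (fun l => hev i j l) w⟩
  | zero => exact ⟨0, fun i j => by simp⟩
  | add x z _ _ hx hz =>
    obtain ⟨E, hE⟩ := hx
    obtain ⟨F, hF⟩ := hz
    exact ⟨E + F, fun i j => by rw [Matrix.add_mulVec, hE, hF, Pi.add_apply, add_smul]⟩
  | smul a x _ hx =>
    obtain ⟨E, hE⟩ := hx
    exact ⟨a • E, fun i j => by rw [Matrix.smul_mulVec, hE, Pi.smul_apply, smul_assoc]⟩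

/-- The union of the eigenvector families is linearly independent. -/
theorem union_indep {L : Type} {R q0 : ℕ} (S : Set (List L)) (ψ : Fin q0 → L → K)
    (hind : LinearIndependent K (fun (i : Fin q0) (w : S) => (w.1.map (ψ i)).prod))
    (M : L → Matrix (Fin R) (Fin R) K) (μ' : Fin q0 → ℕ) (v : (i : Fin q0) → Fin (μ' i) → Fin R → K)
    (hv : ∀ i, LinearIndependent K (v i))
    (hev : ∀ i j l, (M l).mulVec (v i j) = ψ i l • v i j) :
    LinearIndependent K (fun a : Σ i : Fin q0, Fin (μ' i) => v a.1 a.2) := by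
  rw [Fintype.linearIndependent_iff]
  rintro c hc ⟨i0, j0⟩
  obtain ⟨E, hE⟩ := exists_proj S ψ hind M μ' v hev (Pi.single i0 1)
  have h1 : ∑ j, c ⟨i0, j⟩ • v i0 j = 0 := by
    have h2 : E.mulVecLin (∑ a : Σ i : Fin q0, Fin (μ' i), c a • v a.1 a.2) = 0 := by
      rw [hc, map_zero]
    rw [map_sum, Fintype.sum_sigma] at h2
    rw [← h2, Finset.sum_eq_single i0]
    · refine Finset.sum_congr rfl fun j _ => ?_
      rw [map_smul, Matrix.mulVecLin_apply, hE]
      simp
    · intro i _ hi
      refine Finset.sum_eq_zero fun j _ => ?_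
      rw [map_smul, Matrix.mulVecLin_apply, hE]
      simp [Pi.single_eq_of_ne hi]
    · simp
  exact Fintype.linearIndependent_iff.1 (hv i0) (fun j => c ⟨i0, j⟩) h1 j0

end aux

end D16

open D16 in
theorem d16P (h12 : D12Char) (h13 : D13Chain) (h14 : D14Cramer) (h15 : D15Gram) (h17 : D17Root)
    (h01 : D1Int) : D16P := by
  classical
  intro p _ K _ _ _ av hNA L _ R c0 mx q0 h1 s c M lp S X lam ψ μ' v hcomm hnil hone hX hh1 htr hμ'
    hR hv hev hind hlam
  have hp1 : (1 : ℝ) < p := by exact_mod_cast (Fact.out : p.Prime).one_lt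
  have hp0 : (0 : ℝ) < p := by linarith
  -- the characters
  have hcommK : ∀ l l', (fun l => cm K (M l)) l * (fun l => cm K (M l)) l' =
      (fun l => cm K (M l)) l' * (fun l => cm K (M l)) l := by
    intro l l'
    change cm K (M l) * cm K (M l') = cm K (M l') * cm K (M l)
    rw [← cm_mul, ← cm_mul, hcomm]
  obtain ⟨q, χ, μ, hχ, hμ1, hμR, htrace, hroot, hjoint⟩ := h12 K L R (fun l => cm K (M l)) hcommK
  have hJ : ∀ i, ∃ j, ψ i = χ j ∧ μ' i ≤ μ j := fun i =>
    hjoint (ψ i) (μ' i) (v i) (fun j l => hev i j l) (hv i) (hμ' i).1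
  choose J0 hJ0 hJμ using hJ
  have hψinj : Function.Injective ψ := by
    intro i i' hii
    apply hind.injective
    funext w
    change (w.1.map (ψ i)).prod = (w.1.map (ψ i')).prod
    rw [hii]
  have hJinj : Function.Injective J0 := by
    intro i i' h
    apply hψinj
    rw [hJ0, hJ0, h]
  -- dimension count
  have hcard : q ≤ q0 + c0 := by
    have e1 : ∑ j ∈ Finset.univ.map ⟨J0, hJinj⟩, μ j + ∑ j ∈ (Finset.univ.map ⟨J0, hJinj⟩)ᶜ, μ j
        = R := by rw [Finset.sum_add_sum_compl, hμR]
    have e2 : ∑ i, μ' i ≤ ∑ j ∈ Finset.univ.map ⟨J0, hJinj⟩, μ j := by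
      rw [Finset.sum_map]
      exact Finset.sum_le_sum fun i _ => hJμ i
    have e3 : (Finset.univ.map ⟨J0, hJinj⟩)ᶜ.card ≤ ∑ j ∈ (Finset.univ.map ⟨J0, hJinj⟩)ᶜ, μ j := by
      rw [Finset.card_eq_sum_ones]
      exact Finset.sum_le_sum fun j _ => hμ1 j
    have e4 : (Finset.univ.map ⟨J0, hJinj⟩)ᶜ.card = q - q0 := by
      rw [Finset.card_compl, Finset.card_map]
      simp
    omega
  have hfin : q0 ≤ Module.finrank K (Submodule.span K
      {u : Fin q → K | ∃ w ∈ S, u = fun j => (w.map (χ j)).prod}) := by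
    have e1 : (Submodule.span K {u : Fin q → K | ∃ w ∈ S, u = fun j => (w.map (χ j)).prod}).map
        (LinearMap.funLeft K K J0) = ⊤ := by
      rw [eq_top_iff, ← span_top S ψ hind, Submodule.span_le]
      rintro u ⟨w, hw, rfl⟩
      refine ⟨fun j => (w.map (χ j)).prod, Submodule.subset_span ⟨w, hw, rfl⟩, ?_⟩
      funext i
      rw [LinearMap.funLeft_apply, hJ0]
    have e2 := Submodule.finrank_map_le (LinearMap.funLeft K K J0)
      (Submodule.span K {u : Fin q → K | ∃ w ∈ S, u = fun j => (w.map (χ j)).prod})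
    rw [e1, finrank_top, Module.finrank_fin_fun] at e2
    exact e2
  obtain ⟨w, hw, hdet⟩ := h13 K L q c0 χ S hχ hnil hone (by omega)
  choose W hWlen hWS hWw using hw
  set A : Matrix (Fin q) (Fin q) K := fun i j => ((w i).map (χ j)).prod with hA
  have hAdet : A.det ≠ 0 := hdet
  have havA : ∀ i j, av (A i j) ≤ 1 := by
    intro i j
    refine av_list_prod_le _ fun x hx => ?_
    obtain ⟨l, -, rfl⟩ := List.mem_map.1 hx
    exact h17 p K av hNA R (M l) (χ j l) (hroot j l)
  -- Gram matrix
  let G : Matrix (Fin q) (Fin q) ℤ := fun i j => (((w i ++ w j).map M).prod).trace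
  have hG : ∀ i j, (G i j : K) = ∑ l, A i l * (μ l : K) * A j l := by
    intro i j
    change (((((w i ++ w j).map M).prod).trace : ℤ) : K) = _
    rw [← cm_trace, cm_list_prod, htrace]
    refine Finset.sum_congr rfl fun l _ => ?_
    rw [List.map_append, List.prod_append]
    change _ = ((w i).map (χ l)).prod * (μ l : K) * ((w j).map (χ l)).prod
    ring
  have hGX : ∀ i j, ((|G i j| : ℤ) : ℝ) ≤ X := by
    intro i j
    have := htr (W i ++ W j) (by
      rw [List.length_append]
      have := hWlen i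
      have := hWlen j
      omega) (by
      intro u hu
      rcases List.mem_append.1 hu with hu | hu
      · exact hWS i u hu
      · exact hWS j u hu)
    rw [List.flatten_append, ← hWw i, ← hWw j] at this
    exact this
  have hgram := h15 p K av hNA q A μ G X hX hμ1 hAdet hG hGX
  have hfacX : 0 < (q.factorial : ℝ) * X ^ q := by positivity
  set E : ℝ := Real.logb p ((q.factorial : ℝ) * X ^ q) / 2 with hE
  have hEdet : (p : ℝ) ^ (-E) ≤ av A.det := by
    refine (pow_le_pow_iff_left₀ (Real.rpow_nonneg hp0.le _) (av.nonneg _) two_ne_zero).1 ?_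
    refine le_trans (le_of_eq ?_) hgram
    rw [← Real.rpow_natCast, ← Real.rpow_mul hp0.le]
    have : -E * ((2 : ℕ) : ℝ) = -Real.logb p ((q.factorial : ℝ) * X ^ q) := by
      rw [hE]; push_cast; ring
    rw [this, Real.rpow_neg hp0.le, Real.rpow_logb hp0 hp1.ne' hfacX]
  obtain ⟨J, hJcard, hJsolve⟩ := h14 p K av hNA q h1 E A hh1 havA hEdet
  -- the vector `y`
  have hne : ∀ j, χ j lp - (lam : K) ≠ 0 := by
    intro j h0
    have := hlam (χ j lp) (hroot j lp)
    rw [h0, map_zero] at this
    exact absurd this (not_le.2 (Real.rpow_pos_of_pos hp0 _))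
  obtain ⟨cc, hcc, hsol⟩ := hJsolve (fun j => (p : K) ^ (s + c) / (χ j lp - (lam : K))) (by
    intro j
    change av ((p : K) ^ (s + c) / (χ j lp - (lam : K))) ≤ 1
    rw [map_div₀, map_pow, hNA.hp, div_le_one (av.pos (hne j))]
    refine le_trans (le_of_eq ?_) (hlam (χ j lp) (hroot j lp))
    rw [Real.rpow_neg hp0.le, Real.rpow_natCast, inv_pow])
  -- the matrix `P`
  let P : Matrix (Fin R) (Fin R) K := ∑ i, cc i • cm K ((w i).map M).prod
  have hPev : ∀ i j, P.mulVec (v i j) = (∑ k, cc k * A k (J0 i)) • v i j := by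
    intro i j
    change (∑ k, cc k • cm K ((w k).map M).prod).mulVec (v i j) = _
    rw [Matrix.sum_mulVec, Finset.sum_smul]
    refine Finset.sum_congr rfl fun k _ => ?_
    rw [Matrix.smul_mulVec, cm_list_prod,
      list_prod_mulVec (fun l => cm K (M l)) (ψ i) (v i j) (fun l => hev i j l), smul_smul, hJ0 i]
  refine ⟨P, (P * cm K (M lp - Matrix.scalar (Fin R) lam)
        - ((p : K) ^ (h1 + s + c)) • (1 : Matrix (Fin R) (Fin R) K)).rank, ?_, ?_, ?_, le_rfl⟩
  · intro a b
    change av ((∑ i, cc i • cm K ((w i).map M).prod) a b) ≤ 1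
    rw [Matrix.sum_apply]
    refine av_sum_le hNA _ _ fun i _ => ?_
    rw [Matrix.smul_apply, smul_eq_mul, map_mul]
    exact mul_le_one₀ (hcc i) (av.nonneg _) (h01 p K av hNA _).1
  · change (∑ i, cc i • cm K ((w i).map M).prod) * cm K (M lp) =
      cm K (M lp) * ∑ i, cc i • cm K ((w i).map M).prod
    rw [Finset.sum_mul, Finset.mul_sum]
    refine Finset.sum_congr rfl fun i _ => ?_
    rw [smul_mul_assoc, mul_smul_comm, ← cm_mul, ← cm_mul, list_prod_comm M hcomm]
  · -- the rank
    set Z : Matrix (Fin R) (Fin R) K := P * cm K (M lp - Matrix.scalar (Fin R) lam)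
        - ((p : K) ^ (h1 + s + c)) • (1 : Matrix (Fin R) (Fin R) K) with hZ
    have hZv : ∀ i, J0 i ∈ J → ∀ j, Z.mulVec (v i j) = 0 := by
      intro i hi j
      have e1 : (cm K (M lp - Matrix.scalar (Fin R) lam)).mulVec (v i j) =
          (χ (J0 i) lp - (lam : K)) • v i j := by
        have e0 : cm K (M lp - Matrix.scalar (Fin R) lam) =
            cm K (M lp) - (lam : K) • (1 : Matrix (Fin R) (Fin R) K) := by
          ext a b
          simp only [cm, Matrix.map_apply, Matrix.sub_apply, Matrix.scalar_apply,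
            Matrix.diagonal_apply, Matrix.smul_apply, Matrix.one_apply, smul_eq_mul, Int.cast_sub]
          split_ifs <;> simp
        rw [e0, Matrix.sub_mulVec, hev, Matrix.smul_mulVec, Matrix.one_mulVec, sub_smul, hJ0 i]
      rw [hZ, Matrix.sub_mulVec, ← Matrix.mulVec_mulVec, e1, Matrix.mulVec_smul, hPev,
        Matrix.smul_mulVec, Matrix.one_mulVec, hsol _ hi, smul_smul, ← sub_smul]
      have e2 : (χ (J0 i) lp - (lam : K)) * ((p : K) ^ h1 * ((p : K) ^ (s + c) /
          (χ (J0 i) lp - (lam : K)))) - (p : K) ^ (h1 + s + c) = 0 := by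
        have := hne (J0 i)
        field_simp
        ring
      rw [e2, zero_smul]
    have hker : ∑ i ∈ Finset.univ.filter (fun i => J0 i ∈ J), μ' i ≤
        Module.finrank K (LinearMap.ker Z.mulVecLin) := by
      have hui := union_indep S ψ hind (fun l => cm K (M l)) μ' v hv hev
      let g : (Σ i : {i : Fin q0 // J0 i ∈ J}, Fin (μ' i.1)) → Σ i : Fin q0, Fin (μ' i) :=
        fun a => ⟨a.1.1, a.2⟩
      have hg : Function.Injective g := by
        rintro ⟨⟨i, hi⟩, a⟩ ⟨⟨i', hi'⟩, a'⟩ h
        simp only [g, Sigma.mk.injEq] at h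
        obtain ⟨rfl, h2⟩ := h
        rw [heq_eq_eq] at h2
        subst h2
        rfl
      have h3 := hui.comp g hg
      let f : (Σ i : {i : Fin q0 // J0 i ∈ J}, Fin (μ' i.1)) → LinearMap.ker Z.mulVecLin :=
        fun a => ⟨v a.1.1 a.2, by
          rw [LinearMap.mem_ker, Matrix.mulVecLin_apply]
          exact hZv a.1.1 a.1.2 a.2⟩
      have hf : LinearIndependent K f := by
        refine LinearIndependent.of_comp (LinearMap.ker Z.mulVecLin).subtype ?_
        exact h3
      have h4 := hf.fintype_card_le_finrank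
      refine le_trans (le_of_eq ?_) h4
      rw [Fintype.card_sigma]
      simp only [Fintype.card_fin]
      rw [Finset.sum_subtype (Finset.univ.filter (fun i => J0 i ∈ J)) (p := fun i => J0 i ∈ J)
        (by simp) μ']
    have hrn : Z.rank + Module.finrank K (LinearMap.ker Z.mulVecLin) = R := by
      have := LinearMap.finrank_range_add_finrank_ker Z.mulVecLin
      rw [Module.finrank_fin_fun] at this
      exact this
    have hsplit : ∑ i ∈ Finset.univ.filter (fun i => J0 i ∈ J), μ' i +
        ∑ i ∈ Finset.univ.filter (fun i => ¬ J0 i ∈ J), μ' i = ∑ i, μ' i :=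
      Finset.sum_filter_add_sum_filter_not _ _ _
    have hbad : ∑ i ∈ Finset.univ.filter (fun i => ¬ J0 i ∈ J), μ' i ≤ mx * Jᶜ.card := by
      have e1 : (Finset.univ.filter (fun i => ¬ J0 i ∈ J)).card ≤ Jᶜ.card := by
        refine Finset.card_le_card_of_injOn J0 ?_ hJinj.injOn
        intro i hi
        simpa using hi
      calc ∑ i ∈ Finset.univ.filter (fun i => ¬ J0 i ∈ J), μ' i
          ≤ ∑ i ∈ Finset.univ.filter (fun i => ¬ J0 i ∈ J), mx :=
            Finset.sum_le_sum fun i _ => (hμ' i).2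
        _ = (Finset.univ.filter (fun i => ¬ J0 i ∈ J)).card * mx := by
            rw [Finset.sum_const, smul_eq_mul]
        _ ≤ _ := by rw [mul_comm]; exact Nat.mul_le_mul_left _ e1
    have hrank : Z.rank ≤ c0 + mx * Jᶜ.card := by omega
    have hqR : q ≤ R := by
      rw [← hμR]
      calc q = ∑ _j : Fin q, 1 := by simp
        _ ≤ _ := Finset.sum_le_sum fun j _ => hμ1 j
    have hlogX : 0 ≤ Real.logb p X := Real.logb_nonneg hp1 hX
    have hEle : E ≤ (R * Real.logb p R + R * Real.logb p X) / 2 := by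
      rw [hE]
      have e1 : Real.logb p ((q.factorial : ℝ) * X ^ q) =
          Real.logb p (q.factorial : ℝ) + q * Real.logb p X := by
        rw [Real.logb_mul (by positivity) (by positivity), Real.logb_pow]
      have e2 : Real.logb p (q.factorial : ℝ) ≤ R * Real.logb p R := by
        rcases Nat.eq_zero_or_pos R with h0 | hRpos
        · have : q = 0 := by omega
          subst this
          simp [h0]
        · have e3 : (q.factorial : ℝ) ≤ (R : ℝ) ^ R := by
            calc (q.factorial : ℝ) ≤ (R.factorial : ℝ) := by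
                  exact_mod_cast Nat.factorial_le hqR
              _ ≤ (R : ℝ) ^ R := by exact_mod_cast Nat.factorial_le_pow R
          have e4 := Real.logb_le_logb_of_le hp1 (by positivity) e3
          rwa [Real.logb_pow] at e4
      have e5 : (q : ℝ) * Real.logb p X ≤ R * Real.logb p X :=
        mul_le_mul_of_nonneg_right (by exact_mod_cast hqR) hlogX
      rw [e1]
      linarith
    have hh1' : (0 : ℝ) < h1 := by exact_mod_cast hh1
    have hJc : (Jᶜ.card : ℝ) ≤ ((R * Real.logb p R + R * Real.logb p X) / 2) / h1 := by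
      rw [le_div_iff₀ hh1']
      exact hJcard.trans hEle
    calc (Z.rank : ℝ) ≤ ((c0 + mx * Jᶜ.card : ℕ) : ℝ) := by exact_mod_cast hrank
      _ = c0 + mx * (Jᶜ.card : ℝ) := by push_cast; ring
      _ ≤ c0 + mx * (((R * Real.logb p R + R * Real.logb p X) / 2) / h1) := by
          have := mul_le_mul_of_nonneg_left hJc (Nat.cast_nonneg mx : (0 : ℝ) ≤ mx)
          linarith
      _ = _ := by ring

end Gou
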